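import Pool.Agent.helper28.LT.Base
import Pool.Agent.helper47.RA.Num
import Pool.Agent.helper77.LT.EX
import Pool.Agent.helper58.LT.CM
import Pool.Agent.helper58.LT.CM4
import Pool.Agent.helper23.LT.PB
import Pool.Agent.helper26.LT.TA
import Pool.Agent.helper26.LT.FA
import Pool.Agent.helper33.LT.RK

set_option autoImplicit false

/-!
# LT: the count for one field and one conductor
-/

namespace Pool.Agent.helper28.LT

open Finset NumberField Pool.Agent.helper3.FT Pool.Agent.helper47.RA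

/-! ### the module -/

lemma FC_step {α β : Type*} (s : Finset α) (f : α → β) (b c : ℝ) (hb : 0 ≤ b)
    (h1 : ∀ I : Finset β, (∀ y ∈ I, ∃ x ∈ s, f x = y) → (I.card : ℝ) ≤ c)
    (h2 : ∀ y, ∀ s' : Finset α, (∀ x ∈ s', x ∈ s ∧ f x = y) → (s'.card : ℝ) ≤ b) :
    (s.card : ℝ) ≤ c * b := by
  classical
  have h3 := Finset.card_eq_sum_card_image f s
  have h4 : (s.card : ℝ) ≤ ∑ y ∈ s.image f, b := by
    rw [h3]
    push_cast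
    refine Finset.sum_le_sum fun y _ => h2 y _ fun x hx => ?_
    rw [Finset.mem_filter] at hx
    exact hx
  rw [Finset.sum_const, nsmul_eq_mul] at h4
  refine h4.trans (mul_le_mul_of_nonneg_right (h1 _ fun y hy => ?_) hb)
  rw [Finset.mem_image] at hy
  exact hy

lemma FC_comb {α β₁ β₂ β₃ β₄ β₅ : Type*} (s : Finset α) (f₁ : α → β₁) (f₂ : α → β₂)
    (f₃ : α → β₃) (f₄ : α → β₄) (f₅ : α → β₅) (n₁ n₂ n₃ n₄ n₅ n₆ : ℝ) (h2 : 0 ≤ n₂)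
    (h3 : 0 ≤ n₃) (h4 : 0 ≤ n₄) (h5 : 0 ≤ n₅) (h6 : 0 ≤ n₆)
    (H1 : ∀ I : Finset β₁, (∀ y ∈ I, ∃ x ∈ s, f₁ x = y) → (I.card : ℝ) ≤ n₁)
    (H2 : ∀ I : Finset β₂, (∀ y ∈ I, ∃ x ∈ s, f₂ x = y) → (I.card : ℝ) ≤ n₂)
    (H3 : ∀ z₁, ∀ I : Finset β₃, (∀ y ∈ I, ∃ x ∈ s, f₁ x = z₁ ∧ f₃ x = y) → (I.card : ℝ) ≤ n₃)
    (H4 : ∀ z₁ z₂, ∀ I : Finset β₄, (∀ y ∈ I, ∃ x ∈ s, f₁ x = z₁ ∧ f₂ x = z₂ ∧ f₄ x = y) →
      (I.card : ℝ) ≤ n₄)
    (H5 : ∀ z₃, ∀ I : Finset β₅, (∀ y ∈ I, ∃ x ∈ s, f₃ x = z₃ ∧ f₅ x = y) → (I.card : ℝ) ≤ n₅)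
    (H6 : ∀ z₁ z₂ z₃ z₄ z₅, ∀ s' : Finset α, (∀ x ∈ s', x ∈ s ∧ f₁ x = z₁ ∧ f₂ x = z₂ ∧
      f₃ x = z₃ ∧ f₄ x = z₄ ∧ f₅ x = z₅) → (s'.card : ℝ) ≤ n₆) :
    (s.card : ℝ) ≤ n₁ * (n₂ * (n₃ * (n₄ * (n₅ * n₆)))) := by
  refine FC_step s f₁ _ _ (by positivity) H1 fun z₁ s₁ hs₁ => ?_
  refine FC_step s₁ f₂ _ _ (by positivity) (fun I hI => H2 I fun y hy => ?_) fun z₂ s₂ hs₂ => ?_
  · obtain ⟨x, hx, h⟩ := hI y hy
    exact ⟨x, (hs₁ x hx).1, h⟩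
  refine FC_step s₂ f₃ _ _ (by positivity) (fun I hI => H3 z₁ I fun y hy => ?_) fun z₃ s₃ hs₃ => ?_
  · obtain ⟨x, hx, h⟩ := hI y hy
    have e1 := hs₂ x hx
    have e2 := hs₁ x e1.1
    exact ⟨x, e2.1, e2.2, h⟩
  refine FC_step s₃ f₄ _ _ (by positivity) (fun I hI => H4 z₁ z₂ I fun y hy => ?_)
    fun z₄ s₄ hs₄ => ?_
  · obtain ⟨x, hx, h⟩ := hI y hy
    have e0 := hs₃ x hx
    have e1 := hs₂ x e0.1
    have e2 := hs₁ x e1.1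
    exact ⟨x, e2.1, e2.2, e1.2, h⟩
  refine FC_step s₄ f₅ _ _ (by positivity) (fun I hI => H5 z₃ I fun y hy => ?_)
    fun z₅ s₅ hs₅ => ?_
  · obtain ⟨x, hx, h⟩ := hI y hy
    have e3 := hs₄ x hx
    have e0 := hs₃ x e3.1
    have e1 := hs₂ x e0.1
    have e2 := hs₁ x e1.1
    exact ⟨x, e2.1, e0.2, h⟩
  refine H6 z₁ z₂ z₃ z₄ z₅ s₅ fun x hx => ?_
  have e4 := hs₅ x hx
  have e3 := hs₄ x e4.1
  have e0 := hs₃ x e3.1
  have e1 := hs₂ x e0.1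
  have e2 := hs₁ x e1.1
  exact ⟨e2.1, e2.2, e1.2, e0.2, e3.2, e4.2⟩

section

variable {K : Type} [Field K] [NumberField K] {Q : QF K} {κ s f : ℕ}

lemma FC_ideal (hfin : Module.finrank ℚ K = 2) (j : ℕ) (hj : 1 ≤ j) (I : Finset (Ideal (𝓞 K)))
    (hI : ∀ y ∈ I, y ∣ Ideal.span {(j : 𝓞 K)}) : (I.card : ℝ) ≤ ((j.divisors.card : ℕ) : ℝ) ^ 2 := by
  obtain ⟨h1, h2⟩ := card_ideal_dvd (K := K) j hj
  have h3 := h2 hfin
  have h4 : (I : Set (Ideal (𝓞 K))).ncard ≤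
      {I : Ideal (𝓞 K) | I ∣ Ideal.span {(j : 𝓞 K)}}.ncard :=
    Set.ncard_le_ncard (fun y hy => hI y (by exact_mod_cast hy)) h1
  rw [Set.ncard_coe_finset] at h4
  exact_mod_cast h4.trans h3

lemma FC_class (hI : ∀ I : Finset (ClassGroup (𝓞 K)), (∀ y ∈ I, y ^ 5 = 1) →
    (I.card : ℝ) ≤ h5 K) (I : Finset (ClassGroup (𝓞 K))) (h : ∀ y ∈ I, ∀ z ∈ I, y ^ 5 = z ^ 5) :
    (I.card : ℝ) ≤ h5 K := by
  classical
  rcases I.eq_empty_or_nonempty with rfl | ⟨c, hc⟩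
  · simp
  · have h1 : (I.image (fun y => y * c⁻¹)).card = I.card :=
      Finset.card_image_of_injective _ (mul_left_injective _)
    rw [← h1]
    refine hI _ fun y hy => ?_
    rw [Finset.mem_image] at hy
    obtain ⟨z, hz, rfl⟩ := hy
    rw [mul_pow, inv_pow, h z hz c hc, mul_inv_cancel]

lemma FC_class_le (I : Finset (ClassGroup (𝓞 K))) (h : ∀ y ∈ I, y ^ 5 = 1) :
    (I.card : ℝ) ≤ h5 K := by
  classical
  unfold h5
  rw [Nat.card_eq_fintype_card, Fintype.card_subtype]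
  exact_mod_cast Finset.card_le_card fun y hy => by
    rw [Finset.mem_filter]
    exact ⟨Finset.mem_univ _, h y hy⟩

lemma FC_class_lt (I : Finset (ClassGroup (𝓞 K))) (h : ∀ y ∈ I, y ^ 5 = 1) (h1 : ∀ y ∈ I, y ≠ 1) :
    (I.card : ℝ) ≤ h5 K - 1 := by
  classical
  have h2 : (1 : ClassGroup (𝓞 K)) ∉ I := fun h3 => h1 1 h3 rfl
  have h3 := FC_class_le (insert 1 I) (by
    intro y hy
    rw [Finset.mem_insert] at hy
    rcases hy with rfl | hy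
    · simp
    · exact h y hy)
  rw [Finset.card_insert_of_notMem h2] at h3
  push_cast at h3
  linarith

lemma FC_Zb_pos (E : El Q κ s f) (F : Fac E) : 1 ≤ F.Zb := by
  rcases Nat.eq_zero_or_pos F.Zb with h | h
  · have h1 := F.hZ
    rw [h] at h1
    exact absurd (by simpa using h1) E.tup.Z_ne
  · exact h

lemma FC_Λb_pos (E : El Q κ s f) (F : Fac E) : 1 ≤ F.Λb := by
  rcases Nat.eq_zero_or_pos F.Λb with h | h
  · have h1 := F.hΛ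
    rw [h] at h1
    exact absurd (by simpa using h1) E.tup.Λ_ne
  · exact h

lemma FC_Zb_le (hs : 1 ≤ s) (hκ : 100 * s ^ 2 ≤ κ) (E : El Q κ s f) (F : Fac E) :
    F.Zb ≤ 128 * κ ^ 4 := by
  have h1 := F.hZ
  have h2 := E.tup.Z2
  have h3 := E.tup.Z_pos
  have h4 : 1 ≤ F.Zg := by
    rcases Nat.eq_zero_or_pos F.Zg with h | h
    · rw [h] at h1
      exact absurd (by simpa using h1) E.tup.Z_ne
    · exact h
  have h5 : s ≤ κ := by nlinarith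
  have h6 : ((F.Zb * F.Zg : ℕ) : ℤ) ≤ ((128 * κ ^ 2 * s ^ 2 : ℕ) : ℤ) := by
    push_cast
    rw [← h1]
    exact h2
  have h7 : F.Zb * F.Zg ≤ 128 * κ ^ 2 * s ^ 2 := by exact_mod_cast h6
  calc F.Zb = F.Zb * 1 := (mul_one _).symm
    _ ≤ F.Zb * F.Zg := Nat.mul_le_mul_left _ h4
    _ ≤ 128 * κ ^ 2 * s ^ 2 := h7
    _ ≤ 128 * κ ^ 2 * κ ^ 2 := Nat.mul_le_mul_left _ (Nat.pow_le_pow_left h5 2)
    _ = 128 * κ ^ 4 := by ring

lemma FC_Λb_le (hs : 1 ≤ s) (hκ : 100 * s ^ 2 ≤ κ) (E : El Q κ s f) (F : Fac E) :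
    F.Λb ≤ 513 * κ ^ 4 := by
  have h1 := F.hΛ
  have h2 := E.tup.L2
  have h3 := E.tup.Λ_pos
  have h4 : 1 ≤ F.Λg := by
    rcases Nat.eq_zero_or_pos F.Λg with h | h
    · rw [h] at h1
      exact absurd (by simpa using h1) E.tup.Λ_ne
    · exact h
  have h5 : s ≤ κ := by nlinarith
  have h6 : ((F.Λb * F.Λg : ℕ) : ℤ) ≤ ((513 * κ ^ 2 * s ^ 2 : ℕ) : ℤ) := by
    push_cast
    rw [← h1]
    exact h2
  have h7 : F.Λb * F.Λg ≤ 513 * κ ^ 2 * s ^ 2 := by exact_mod_cast h6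
  calc F.Λb = F.Λb * 1 := (mul_one _).symm
    _ ≤ F.Λb * F.Λg := Nat.mul_le_mul_left _ h4
    _ ≤ 513 * κ ^ 2 * s ^ 2 := h7
    _ ≤ 513 * κ ^ 2 * κ ^ 2 := Nat.mul_le_mul_left _ (Nat.pow_le_pow_left h5 2)
    _ = 513 * κ ^ 4 := by ring

lemma FC_f_le (hneg : Q.D < 0) (hs : 1 ≤ s) (hκ : 100 * s ^ 2 ≤ κ) (E : El Q κ s f) :
    f ≤ 2 ^ 11 * κ ^ 5 := by
  have h1 := E.tup.D2
  have h5 : s ≤ κ := by nlinarith
  have h2 : (f : ℤ) ^ 2 ≤ -((f : ℤ) ^ 2 * Q.D) := by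
    have : 0 ≤ (f : ℤ) ^ 2 := sq_nonneg _
    nlinarith
  have h3 : (s : ℤ) ^ 6 ≤ (κ : ℤ) ^ 6 := by
    exact_mod_cast Nat.pow_le_pow_left h5 6
  have h4 : (f : ℤ) ^ 2 ≤ (2 ^ 11 * (κ : ℤ) ^ 5) ^ 2 := by
    calc (f : ℤ) ^ 2 ≤ 2 ^ 22 * (κ : ℤ) ^ 4 * s ^ 6 := h2.trans h1
      _ ≤ 2 ^ 22 * (κ : ℤ) ^ 4 * κ ^ 6 := by
        apply mul_le_mul_of_nonneg_left h3 (by positivity)
      _ = _ := by ring
  have h6 := abs_le_of_sq_le_sq h4 (by positivity)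
  have h7 : (f : ℤ) ≤ 2 ^ 11 * (κ : ℤ) ^ 5 := (le_abs_self _).trans (by simpa using h6)
  exact_mod_cast h7

lemma FC_six (f : ℕ) (hf : 1 ≤ f) : 6 ^ f.primeFactors.card ≤ f.divisors.card ^ 3 := by
  have h1 : 2 ^ f.primeFactors.card ≤ f.divisors.card := by
    rw [Nat.card_divisors (by omega)]
    rw [← Finset.prod_const]
    refine Finset.prod_le_prod' fun p hp => ?_
    have := (Nat.Prime.factorization_pos_of_dvd (Nat.prime_of_mem_primeFactors hp) (by omega)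
      (Nat.dvd_of_mem_primeFactors hp))
    omega
  calc 6 ^ f.primeFactors.card ≤ (2 ^ 3) ^ f.primeFactors.card :=
        Nat.pow_le_pow_left (by norm_num) _
    _ = (2 ^ f.primeFactors.card) ^ 3 := by rw [← pow_mul, ← pow_mul, mul_comm]
    _ ≤ f.divisors.card ^ 3 := Nat.pow_le_pow_left h1 3

lemma FC_part (hneg : Q.D < 0) (hs : 1 ≤ s) (hκ : 100 * s ^ 2 ≤ κ) (hf : 1 ≤ f) {S : Finset Tpl}
    (E : {t // t ∈ S} → El Q κ s f) (hE : ∀ t, (E t).tpl = t.1) (F : ∀ t, Fac (E t))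
    (z₁ z₂ : ℕ) (z₃ z₄ : Ideal (𝓞 K)) (z₅ : ClassGroup (𝓞 K)) (s' : Finset {t // t ∈ S})
    (h : ∀ x ∈ s', (F x).Zb = z₁ ∧ (F x).Λb = z₂ ∧ (F x).A = z₃ ∧ (F x).B = z₄ ∧
      (F x).cl = z₅) :
    (s'.card : ℝ) ≤ 10 ^ 6 * 6 ^ f.primeFactors.card * (f / rad f) ^ 2 ∧
    (z₁ = 1 → (s'.card : ℝ) ≤ 10 ^ 6 * 6 ^ f.primeFactors.card * (f / rad f)) := by
  let p : Part Q κ s f {x // x ∈ s'} :=
    { E := fun i => E i.1
      F := fun i => F i.1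
      inj := fun i j hij => by
        have h1 : (E i.1).tpl = (E j.1).tpl := hij
        rw [hE, hE] at h1
        exact Subtype.ext (Subtype.ext h1)
      Zb := z₁
      Λb := z₂
      A := z₃
      B := z₄
      C := z₅
      hZb := fun i => (h i.1 i.2).1
      hΛb := fun i => (h i.1 i.2).2.1
      hA := fun i => (h i.1 i.2).2.2.1
      hB := fun i => (h i.1 i.2).2.2.2.1
      hC := fun i => (h i.1 i.2).2.2.2.2 }
  have h1 := Part.bound hneg hs hκ hf p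
  rw [Fintype.card_coe] at h1
  exact h1

/-- the count, with parameters -/
lemma FC_core (hfin : Module.finrank ℚ K = 2) (hneg : Q.D < 0) (hs : 1 ≤ s)
    (hκ : 100 * s ^ 2 ≤ κ) (δ C₁ C₂ W : ℝ) (hδ : 0 < δ) (hC₁ : 1 ≤ C₁) (hC₂ : 1 ≤ C₂)
    (H1 : ∀ X f : ℕ, 1 ≤ X → 1 ≤ f → ∀ I : Finset ℕ,
      (∀ z ∈ I, 1 ≤ z ∧ z ≤ X ∧ ∀ p : ℕ, p.Prime → p ∣ z → p ∣ f) →
      (I.card : ℝ) ≤ C₁ * (X : ℝ) ^ δ * (f : ℝ) ^ δ)
    (H2 : ∀ n : ℕ, 0 < n → ((n.divisors.card : ℕ) : ℝ) ≤ C₂ * (n : ℝ) ^ δ)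
    (hW : W = (2 ^ 40 * (κ : ℝ) ^ 20) ^ δ)
    (hf : 1 ≤ f) {S : Finset Tpl}
    (E : {t // t ∈ S} → El Q κ s f) (hE : ∀ t, (E t).tpl = t.1) (F : ∀ t, Fac (E t))
    (n₅ R : ℝ) (h5 : 0 ≤ n₅) (hR : 0 ≤ R)
    (H5 : ∀ z₃, ∀ I : Finset (ClassGroup (𝓞 K)),
      (∀ y ∈ I, ∃ x, (F x).A = z₃ ∧ (F x).cl = y) → (I.card : ℝ) ≤ n₅)
    (H6 : ∀ (z₁ z₂ : ℕ) (z₃ z₄ : Ideal (𝓞 K)) (z₅ : ClassGroup (𝓞 K))
      (s' : Finset {t // t ∈ S}), (∀ x ∈ s', (F x).Zb = z₁ ∧ (F x).Λb = z₂ ∧ (F x).A = z₃ ∧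
        (F x).B = z₄ ∧ (F x).cl = z₅) →
        (s'.card : ℝ) ≤ 10 ^ 6 * 6 ^ f.primeFactors.card * R) :
    (S.card : ℝ) ≤ 10 ^ 6 * C₁ ^ 2 * C₂ ^ 7 * W ^ 11 * R * n₅ := by
  classical
  rcases S.eq_empty_or_nonempty with hS | hS
  · subst hS
    have : 0 ≤ W := by rw [hW]; positivity
    simp only [Finset.card_empty, Nat.cast_zero]
    positivity
  have hne : Nonempty {t // t ∈ S} := ⟨⟨hS.choose, hS.choose_spec⟩⟩
  have hκ1 : (1 : ℝ) ≤ κ := by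
    have : 1 ≤ κ := by nlinarith
    exact_mod_cast this
  have hκ0 : 1 ≤ κ := by exact_mod_cast hκ1
  have hG1 : (1 : ℝ) ≤ 2 ^ 40 * (κ : ℝ) ^ 20 := by
    have := one_le_pow₀ (n := 20) hκ1
    nlinarith
  have hW1 : 1 ≤ W := by rw [hW]; exact Real.one_le_rpow hG1 hδ.le
  have hW0 : 0 < W := by linarith
  -- every number below the bound
  have key : ∀ x : ℝ, 0 ≤ x → x ≤ 2 ^ 40 * (κ : ℝ) ^ 20 → x ^ δ ≤ W := fun x h0 h1 => by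
    rw [hW]; exact Real.rpow_le_rpow h0 h1 hδ.le
  have hpow : ∀ a : ℕ, a ≤ 20 → (κ : ℝ) ^ a ≤ (κ : ℝ) ^ 20 := fun a ha =>
    pow_le_pow_right₀ hκ1 ha
  have hfW : (f : ℝ) ^ δ ≤ W := by
    refine key _ (by positivity) ?_
    have h1 : (f : ℝ) ≤ 2 ^ 11 * (κ : ℝ) ^ 5 := by
      exact_mod_cast FC_f_le hneg hs hκ (E hne.some)
    have h2 := hpow 5 (by norm_num)
    have h3 : (0 : ℝ) < (κ : ℝ) ^ 20 := by positivity
    nlinarith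
  have hdiv : ∀ n : ℕ, 0 < n → (n : ℝ) ≤ 2 ^ 40 * (κ : ℝ) ^ 20 →
      ((n.divisors.card : ℕ) : ℝ) ≤ C₂ * W := fun n h0 h1 =>
    (H2 n h0).trans (mul_le_mul_of_nonneg_left (key _ (by positivity) h1) (by linarith))
  have hXW : (((513 * κ ^ 4 : ℕ) : ℝ)) ^ δ ≤ W := by
    refine key _ (by positivity) ?_
    push_cast
    have h2 := hpow 4 (by norm_num)
    have h3 : (0 : ℝ) < (κ : ℝ) ^ 20 := by positivity
    nlinarith
  have hsm : ∀ I : Finset ℕ, (∀ z ∈ I, 1 ≤ z ∧ z ≤ 513 * κ ^ 4 ∧ ∀ p : ℕ, p.Prime → p ∣ z →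
      p ∣ f) → (I.card : ℝ) ≤ C₁ * W ^ 2 := fun I hI => by
    have hκ00 : 0 < κ := hκ0
    have h1 := H1 (513 * κ ^ 4) f (Nat.succ_le_of_lt (by positivity)) hf I hI
    refine h1.trans ?_
    have h2 : (((513 * κ ^ 4 : ℕ) : ℝ)) ^ δ * (f : ℝ) ^ δ ≤ W * W :=
      mul_le_mul hXW hfW (by positivity) hW0.le
    calc C₁ * (((513 * κ ^ 4 : ℕ) : ℝ)) ^ δ * (f : ℝ) ^ δ
        = C₁ * ((((513 * κ ^ 4 : ℕ) : ℝ)) ^ δ * (f : ℝ) ^ δ) := by ring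
      _ ≤ C₁ * (W * W) := mul_le_mul_of_nonneg_left h2 (by linarith)
      _ = C₁ * W ^ 2 := by ring
  have hZle : ∀ t, (F t).Zb ≤ 128 * κ ^ 4 := fun t => FC_Zb_le hs hκ (E t) (F t)
  have hΛle : ∀ t, (F t).Λb ≤ 513 * κ ^ 4 := fun t => FC_Λb_le hs hκ (E t) (F t)
  have hZpos : ∀ t, 1 ≤ (F t).Zb := fun t => FC_Zb_pos (E t) (F t)
  have hΛpos : ∀ t, 1 ≤ (F t).Λb := fun t => FC_Λb_pos (E t) (F t)
  have hsix : (6 : ℝ) ^ f.primeFactors.card ≤ (C₂ * W) ^ 3 := by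
    have h1 : ((6 ^ f.primeFactors.card : ℕ) : ℝ) ≤ ((f.divisors.card ^ 3 : ℕ) : ℝ) := by
      exact_mod_cast FC_six f hf
    push_cast at h1
    refine h1.trans (pow_le_pow_left₀ (by positivity) ?_ 3)
    exact (H2 f (by omega)).trans (mul_le_mul_of_nonneg_left hfW (by linarith))
  have hfinal := FC_comb (Finset.univ : Finset {t // t ∈ S}) (fun t => (F t).Zb)
    (fun t => (F t).Λb) (fun t => (F t).A) (fun t => (F t).B) (fun t => (F t).cl)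
    (C₁ * W ^ 2) (C₁ * W ^ 2) ((C₂ * W) ^ 2) ((C₂ * W) ^ 2) n₅
    (10 ^ 6 * (C₂ * W) ^ 3 * R) (by positivity) (by positivity) (by positivity) h5
    (by positivity) ?_ ?_ ?_ ?_ ?_ ?_
  · rw [Finset.card_univ, Fintype.card_coe] at hfinal
    refine hfinal.trans (le_of_eq ?_)
    ring
  · intro I hI
    refine hsm I fun z hz => ?_
    obtain ⟨t, _, rfl⟩ := hI z hz
    exact ⟨hZpos t, (hZle t).trans (by nlinarith [Nat.zero_le (κ ^ 4)]), (F t).pZ⟩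
  · intro I hI
    refine hsm I fun z hz => ?_
    obtain ⟨t, _, rfl⟩ := hI z hz
    exact ⟨hΛpos t, hΛle t, (F t).pΛ⟩
  · intro z₁ I hI
    rcases I.eq_empty_or_nonempty with rfl | ⟨y, hy⟩
    · simp only [Finset.card_empty, Nat.cast_zero]
      positivity
    obtain ⟨t, _, h1, _⟩ := hI y hy
    have h1' : (F t).Zb = z₁ := h1
    have hz : 1 ≤ z₁ := by rw [← h1']; exact hZpos t
    have hz' : z₁ ≤ 128 * κ ^ 4 := by rw [← h1']; exact hZle t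
    have h2 : (I.card : ℝ) ≤ (((z₁ ^ 5).divisors.card : ℕ) : ℝ) ^ 2 := by
      refine FC_ideal hfin _ (Nat.one_le_pow _ _ hz) I fun y' hy' => ?_
      obtain ⟨t', _, h3, h4⟩ := hI y' hy'
      have h3' : (F t').Zb = z₁ := h3
      have h4' : (F t').A = y' := h4
      have h5 := (F t').nA
      rw [h3', h4'] at h5
      refine ⟨Q.bar y', ?_⟩
      rw [h5]
      push_cast
      rfl
    refine h2.trans (pow_le_pow_left₀ (by positivity) (hdiv _ (Nat.one_le_pow _ _ hz) ?_) 2)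
    have h3 : (z₁ : ℝ) ≤ 128 * (κ : ℝ) ^ 4 := by exact_mod_cast hz'
    push_cast
    calc (z₁ : ℝ) ^ 5 ≤ (128 * (κ : ℝ) ^ 4) ^ 5 := pow_le_pow_left₀ (by positivity) h3 5
      _ = 2 ^ 35 * (κ : ℝ) ^ 20 := by ring
      _ ≤ 2 ^ 40 * (κ : ℝ) ^ 20 := by
        apply mul_le_mul_of_nonneg_right (by norm_num) (by positivity)
  · intro z₁ z₂ I hI
    rcases I.eq_empty_or_nonempty with rfl | ⟨y, hy⟩
    · simp only [Finset.card_empty, Nat.cast_zero]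
      positivity
    obtain ⟨t, _, h1, h1l, _⟩ := hI y hy
    have h1' : (F t).Zb = z₁ := h1
    have h1l' : (F t).Λb = z₂ := h1l
    have hz : 1 ≤ z₁ := by rw [← h1']; exact hZpos t
    have hz' : z₁ ≤ 128 * κ ^ 4 := by rw [← h1']; exact hZle t
    have hl : 1 ≤ z₂ := by rw [← h1l']; exact hΛpos t
    have hl' : z₂ ≤ 513 * κ ^ 4 := by rw [← h1l']; exact hΛle t
    have hpos : 1 ≤ z₁ ^ 2 * z₂ := Nat.mul_pos (Nat.one_le_pow _ _ hz) hl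
    have h2 : (I.card : ℝ) ≤ (((z₁ ^ 2 * z₂).divisors.card : ℕ) : ℝ) ^ 2 := by
      refine FC_ideal hfin _ hpos I fun y' hy' => ?_
      obtain ⟨t', _, h3, h3l, h4⟩ := hI y' hy'
      have h3' : (F t').Zb = z₁ := h3
      have h3l' : (F t').Λb = z₂ := h3l
      have h4' : (F t').B = y' := h4
      have h5 := (F t').nB
      rw [h3', h4', h3l'] at h5
      refine ⟨Q.bar y', ?_⟩
      rw [h5]
      push_cast
      rfl
    refine h2.trans (pow_le_pow_left₀ (by positivity) (hdiv _ hpos ?_) 2)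
    have h3 : (z₁ : ℝ) ≤ 128 * (κ : ℝ) ^ 4 := by exact_mod_cast hz'
    have h3l : (z₂ : ℝ) ≤ 513 * (κ : ℝ) ^ 4 := by exact_mod_cast hl'
    have h12 := hpow 12 (by norm_num)
    push_cast
    calc (z₁ : ℝ) ^ 2 * z₂ ≤ (128 * (κ : ℝ) ^ 4) ^ 2 * (513 * (κ : ℝ) ^ 4) := by
          gcongr
      _ = 8404992 * (κ : ℝ) ^ 12 := by ring
      _ ≤ 2 ^ 40 * (κ : ℝ) ^ 20 := by nlinarith
  · intro z₃ I hI
    refine H5 z₃ I fun y hy => ?_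
    obtain ⟨t, _, h1, h2⟩ := hI y hy
    exact ⟨t, h1, h2⟩
  · intro z₁ z₂ z₃ z₄ z₅ s' hs'
    refine (H6 z₁ z₂ z₃ z₄ z₅ s' fun x hx => (hs' x hx).2).trans ?_
    have h1 : (10 : ℝ) ^ 6 * 6 ^ f.primeFactors.card ≤ 10 ^ 6 * (C₂ * W) ^ 3 :=
      mul_le_mul_of_nonneg_left hsix (by norm_num)
    exact mul_le_mul_of_nonneg_right h1 hR

end

/-- FC (from EX, FA, CM2-4, PB, TA, RK): the count for one field and one `f` -/
theorem field_count (ε : ℝ) (hε : 0 < ε) : ∃ C : ℝ, 1 ≤ C ∧ ∀ (K : Type) [Field K]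
    [NumberField K] (Q : QF K), Module.finrank ℚ K = 2 → Q.D < 0 → ∀ κ s f : ℕ, 1 ≤ s →
    100 * s ^ 2 ≤ κ → 1 ≤ f → ∀ S : Finset Tpl, (∀ t ∈ S, TupD κ s t ((f : ℤ) ^ 2 * Q.D)) →
    ((∀ t ∈ S, ∃ q : ℕ, q.Prime ∧ q ∣ f ∧ (q : ℤ) ∣ t.2.2.2) →
      (S.card : ℝ) ≤ C * (κ : ℝ) ^ ε * (f / rad f) ^ 2 * h5 K) ∧
    ((∀ t ∈ S, ∀ q : ℕ, q.Prime → q ∣ f → ¬ (q : ℤ) ∣ t.2.2.2) →
      (S.card : ℝ) ≤ C * (κ : ℝ) ^ ε * (f / rad f) * h5 K ∧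
      (512 * (κ : ℤ) ^ 2 * s ^ 2 < -Q.D →
        (S.card : ℝ) ≤ C * (κ : ℝ) ^ ε * (f / rad f) * (h5 K - 1))) := by
  have hδ : 0 < ε / 220 := by positivity
  obtain ⟨C₁, hC₁, H1⟩ := card_smooth (ε / 220) hδ
  obtain ⟨C₂, hC₂, H2⟩ := card_divisors_le (ε / 220) hδ
  have h2ε : (1 : ℝ) ≤ 2 ^ (2 * ε) := Real.one_le_rpow (by norm_num) (by positivity)
  have hp1 : 1 ≤ C₁ ^ 2 := one_le_pow₀ hC₁
  have hp2 : 1 ≤ C₂ ^ 7 := one_le_pow₀ hC₂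
  refine ⟨10 ^ 6 * C₁ ^ 2 * C₂ ^ 7 * 2 ^ (2 * ε), ?_, ?_⟩
  · have h1 : (1 : ℝ) ≤ 10 ^ 6 * C₁ ^ 2 := by nlinarith
    have h2 : (1 : ℝ) ≤ 10 ^ 6 * C₁ ^ 2 * C₂ ^ 7 := by nlinarith
    nlinarith
  intro K _ _ Q hfin hneg κ s f hs hκ hf S hS
  have hκ1 : (1 : ℝ) ≤ κ := by
    have : 1 ≤ κ := by nlinarith
    exact_mod_cast this
  have hκ0 : (0 : ℝ) < κ := by linarith
  have hex : ∀ t : {t // t ∈ S}, ∃ E : El Q κ s f, E.tpl = t.1 := by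
    rintro ⟨t, ht⟩
    obtain ⟨E, h1, h2, h3, h4, h5, h6⟩ := exists_El Q κ s f t.1.1 t.1.2 t.2.1 t.2.2.1 t.2.2.2
      (lam t) hf (hS t ht)
    refine ⟨E, ?_⟩
    unfold El.tpl
    rw [h1, h2, h3, h4, h5]
  choose E hE using hex
  have F : ∀ t, Fac (E t) := fun t => (exists_Fac (E t) hf).some
  have H1' : ∀ X f : ℕ, 1 ≤ X → 1 ≤ f → ∀ I : Finset ℕ,
      (∀ z ∈ I, 1 ≤ z ∧ z ≤ X ∧ ∀ p : ℕ, p.Prime → p ∣ z → p ∣ f) →
      (I.card : ℝ) ≤ C₁ * (X : ℝ) ^ (ε / 220) * (f : ℝ) ^ (ε / 220) := by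
    classical
    intro X f hX hf I hI
    refine le_trans ?_ (H1 X f hX hf)
    refine Nat.cast_le.2 (Finset.card_le_card fun z hz => ?_)
    exact Finset.mem_filter.2 ⟨Finset.mem_Icc.2 ⟨(hI z hz).1, (hI z hz).2.1⟩, (hI z hz).2.2⟩
  have hW : ((2 ^ 40 * (κ : ℝ) ^ 20) ^ (ε / 220)) ^ 11 = 2 ^ (2 * ε) * (κ : ℝ) ^ ε := by
    rw [← Real.rpow_natCast, ← Real.rpow_mul (by positivity), Real.mul_rpow (by positivity)
      (by positivity), ← Real.rpow_natCast, ← Real.rpow_natCast, ← Real.rpow_mul (by positivity),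
      ← Real.rpow_mul (by positivity)]
    congr 2
    · push_cast; ring
    · push_cast; ring
  have hr0 : (0 : ℝ) ≤ f / rad f := by positivity
  have hh1 : (1 : ℝ) ≤ h5 K := by
    have := FC_class_le (K := K) {1} (by simp)
    simpa using this
  have hcl : ∀ z₃ : Ideal (𝓞 K), ∀ I : Finset (ClassGroup (𝓞 K)),
      (∀ y ∈ I, ∃ x, (F x).A = z₃ ∧ (F x).cl = y) → (I.card : ℝ) ≤ h5 K := by
    intro z₃ I hI
    refine FC_class FC_class_le I fun y hy z hz => ?_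
    obtain ⟨t, h1, rfl⟩ := hI y hy
    obtain ⟨t', h1', rfl⟩ := hI z hz
    exact cl_pow _ _ _ _ (h1.trans h1'.symm)
  refine ⟨fun _ => ?_, fun hgood => ⟨?_, fun hD => ?_⟩⟩
  · have h := FC_core hfin hneg hs hκ (ε / 220) C₁ C₂ _ hδ hC₁ hC₂ H1' H2 rfl hf E hE F (h5 K)
      ((f / rad f) ^ 2) (by positivity) (by positivity) hcl
      (fun z₁ z₂ z₃ z₄ z₅ s' hs' => (FC_part hneg hs hκ hf E hE F z₁ z₂ z₃ z₄ z₅ s' hs').1)
    rw [hW] at h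
    refine h.trans (le_of_eq (by ring))
  all_goals
    have hZ1 : ∀ t, (F t).Zb = 1 := by
      intro t
      by_contra hne
      obtain ⟨p, hp, hpd⟩ := Nat.exists_prime_and_dvd hne
      have h1 := (F t).pZ p hp hpd
      refine hgood t.1 t.2 p hp h1 ?_
      have h2 : t.1.2.2.2 = (E t).Z := by
        have := hE t
        unfold El.tpl at this
        rw [← this]
      rw [h2, (F t).hZ]
      exact Dvd.dvd.mul_right (by exact_mod_cast hpd) _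
    have hpart : ∀ (z₁ z₂ : ℕ) (z₃ z₄ : Ideal (𝓞 K)) (z₅ : ClassGroup (𝓞 K))
        (s' : Finset {t // t ∈ S}), (∀ x ∈ s', (F x).Zb = z₁ ∧ (F x).Λb = z₂ ∧ (F x).A = z₃ ∧
        (F x).B = z₄ ∧ (F x).cl = z₅) →
        (s'.card : ℝ) ≤ 10 ^ 6 * 6 ^ f.primeFactors.card * (f / rad f) := by
      intro z₁ z₂ z₃ z₄ z₅ s' hs'
      rcases s'.eq_empty_or_nonempty with rfl | ⟨x, hx⟩
      · simp only [Finset.card_empty, Nat.cast_zero]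
        positivity
      · exact (FC_part hneg hs hκ hf E hE F z₁ z₂ z₃ z₄ z₅ s' hs').2
          ((hs' x hx).1.symm.trans (hZ1 x))
  · have h := FC_core hfin hneg hs hκ (ε / 220) C₁ C₂ _ hδ hC₁ hC₂ H1' H2 rfl hf E hE F (h5 K)
      (f / rad f) (by positivity) (by positivity) hcl hpart
    rw [hW] at h
    refine h.trans (le_of_eq (by ring))
  · have h := FC_core hfin hneg hs hκ (ε / 220) C₁ C₂ _ hδ hC₁ hC₂ H1' H2 rfl hf E hE F (h5 K - 1)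
      (f / rad f) (by linarith) (by positivity) (fun z₃ I hI => by
        refine FC_class_lt I (fun y hy => ?_) (fun y hy => ?_)
        · obtain ⟨t, h1, rfl⟩ := hI y hy
          exact cl_pow_one _ _ (hZ1 t)
        · obtain ⟨t, h1, rfl⟩ := hI y hy
          exact cl_ne_one hneg hf _ _ (hZ1 t) hD) hpart
    rw [hW] at h
    refine h.trans (le_of_eq (by ring))

end Pool.Agent.helper28.LT
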